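import Pool.Agent.Helper92.TF.JFam3

/-!
# The family of local site integrals: the theorem
-/

namespace Pool.Agent.Helper9.TF

open Complex Finset Filter Topology MeasureTheory
open Pool.Agent.Helper9.TB

lemma jf_IL_div (N a : ℕ) (h ρ : ℝ) (X B : ℂ → ℂ) (K : ℂ) :
    IL N a h ρ X (fun y => B y / K) = IL N a h ρ X B / K := by
  unfold IL
  rw [← intervalIntegral.integral_div]
  apply intervalIntegral.integral_congr
  intro ξ _
  simp only [div_eq_mul_inv]
  ring

/-- the exponential form of a nonvanishing holomorphic function on a disc -/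
lemma jf_exp_form {J J' : ℂ → ℂ} {N : ℂ} (hN : N ≠ 0) {c : ℂ} {r : ℝ} (hr : 0 < r)
    (hd : ∀ t ∈ Metric.ball c r, HasDerivAt J (N * J' t) t)
    (hne : ∀ t ∈ Metric.ball c r, J t ≠ 0) :
    ∃ v : ℂ → ℂ, v c = 0 ∧ ∀ t ∈ Metric.ball c r, HasDerivAt v (J' t / J t) t ∧
      J t = J c * Complex.exp (N * v t) := by
  have hJd : DifferentiableOn ℂ J (Metric.ball c r) :=
    fun t ht => (hd t ht).differentiableAt.differentiableWithinAt
  have hJ'd : DifferentiableOn ℂ J' (Metric.ball c r) := by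
    have h1 := hJd.deriv Metric.isOpen_ball
    have h2 := h1.const_mul (N⁻¹)
    apply h2.congr
    intro t ht
    rw [(hd t ht).deriv]
    field_simp
  have hw : DifferentiableOn ℂ (fun t => J' t / J t) (Metric.ball c r) := hJ'd.div hJd hne
  obtain ⟨v, hv0, hv⟩ := hw.isExactOn_ball.with_val_at c 0
  refine ⟨v, hv0, fun t ht => ⟨hv t ht, ?_⟩⟩
  have hE : ∀ s ∈ Metric.ball c r, HasDerivAt (fun s => J s * Complex.exp (-(N * v s))) 0 s := by
    intro s hs
    have h1 := (hd s hs).mul ((((hv s hs).const_mul N).neg).cexp)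
    refine h1.congr_deriv ?_
    have := hne s hs
    field_simp
    ring
  have hconst := Metric.isOpen_ball.is_const_of_deriv_eq_zero
    (convex_ball c r).isPreconnected
    (fun s hs => (hE s hs).differentiableAt.differentiableWithinAt)
    (fun s hs => (hE s hs).deriv) ht (Metric.mem_ball_self hr)
  simp only [hv0, mul_zero, neg_zero, Complex.exp_zero, mul_one] at hconst
  rw [← hconst, mul_assoc, ← Complex.exp_add]
  simp

theorem J_family {ρ : ℝ} (hρ : 0 < ρ) (hρ1 : ρ ≤ 1 / 1000) : ∃ R : ℕ, ∀ a : ℕ, R ≤ a →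
    ∀ θ : ℝ, (θ = 0 ∨ θ = 1) → ∃ C : ℝ, 0 < C ∧ ∃ N0 : ℕ, ∀ N : ℕ, N0 ≤ N → ∀ P : ℂ → ℂ,
      DifferentiableOn ℂ P (Metric.ball 0 ρ) → P 0 = 0 → deriv P 0 = 0 →
      LipS 0 ρ θ (1 / 2) (deriv P) →
      ∃ v w : ℂ → ℂ, v (1 / 4) = 0 ∧
        IL N a ((1 + θ) / a ^ 2) ρ (fun y => GA N y (1 / 4) + P y) (fun _ => 1) ≠ 0 ∧
        ∀ t ∈ Metric.ball (1 / 4 : ℂ) (1 / 200), HasDerivAt v (w t) t ∧
          IL N a ((1 + θ) / a ^ 2) ρ (fun y => GA N y t + P y) (fun _ => 1) =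
            IL N a ((1 + θ) / a ^ 2) ρ (fun y => GA N y (1 / 4) + P y) (fun _ => 1) *
              Complex.exp (N * v t) ∧
          ∃ z : ℂ, ‖z - 1 / a‖ ≤ 3 / a ^ 2 ∧
            2 * Real.pi * I * a * z - 2 * Real.pi * I + GAy N z t + deriv P z = 0 ∧
            ‖w t - GAt N z t‖ ≤ C / Real.sqrt N ∧
            |Real.log ‖IL N a ((1 + θ) / a ^ 2) ρ (fun y => GA N y t + P y) (fun _ => 1)‖ -
              N * (Psi a (fun y => GA N y t + P y) z).re| ≤ C * (1 + Real.log N) := by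
  obtain ⟨R1, hSL⟩ := SL hρ (by linarith : ρ ≤ 1 / 10)
  obtain ⟨C2, hC2p, hC2⟩ := GA_lim
  obtain ⟨C3, hC3p, hC3⟩ := gamy_cubic
  refine ⟨max R1 (⌈10 / ρ⌉₊ + 1), fun a ha θ hθ => ?_⟩
  have haR1 : R1 ≤ a := le_trans (le_max_left _ _) ha
  have ha2 : 10 / ρ ≤ a := by
    have h1 : ⌈10 / ρ⌉₊ + 1 ≤ a := le_trans (le_max_right _ _) ha
    have h2 : (⌈10 / ρ⌉₊ : ℝ) ≤ a := by
      have : (⌈10 / ρ⌉₊ : ℕ) ≤ a := by omega
      exact_mod_cast this
    exact le_trans (Nat.le_ceil _) h2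
  have ha10 : (10 : ℝ) ≤ a := by
    have : (10 : ℝ) ≤ 10 / ρ := by
      rw [le_div_iff₀ hρ]; linarith
    linarith
  have ha0 : (0 : ℝ) < a := by linarith
  have hia : 1 / (a : ℝ) ≤ ρ / 10 := by
    rw [div_le_iff₀ hρ] at ha2
    rw [div_le_div_iff₀ ha0 (by norm_num)]
    linarith
  have hia2 : 1 / (a : ℝ) ^ 2 ≤ 1 / a := by
    apply one_div_le_one_div_of_le ha0
    nlinarith
  have hθ0 : 0 ≤ θ := by rcases hθ with h | h <;> rw [h] <;> norm_num
  have hθ1 : θ ≤ 1 := by rcases hθ with h | h <;> rw [h] <;> norm_num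
  have hd : (1 + θ = 1 ∨ 1 + θ = 2) := by
    rcases hθ with h | h
    · left; rw [h]; norm_num
    · right; rw [h]; norm_num
  have hh : 0 < (1 + θ) / (a : ℝ) ^ 2 := by positivity
  have hh1 : (1 + θ) / (a : ℝ) ^ 2 < ρ / 2 := by
    have : (1 + θ) / (a : ℝ) ^ 2 = (1 + θ) * (1 / (a : ℝ) ^ 2) := by ring
    rw [this]
    have h0 : 0 < 1 / (a : ℝ) ^ 2 := by positivity
    nlinarith
  obtain ⟨C1, hC1p, N1, hN1⟩ := hSL a haR1 (1 + θ) hd
  set K : ℝ := C2 + C3 + 1 with hK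
  have hKp : 0 < K := by positivity
  refine ⟨K * C1 + |Real.log C1| + 1, by positivity, max N1 (max 20 (⌈100 * C2⌉₊)), ?_⟩
  intro N hN P hP hP0 hP1 hL
  have hN1' : N1 ≤ N := le_trans (le_max_left _ _) hN
  have hN20 : 20 ≤ N := le_trans (le_trans (le_max_left _ _) (le_max_right _ _)) hN
  have hNC : 100 * C2 ≤ N := by
    have h1 : ⌈100 * C2⌉₊ ≤ N := le_trans (le_trans (le_max_right _ _) (le_max_right _ _)) hN
    exact le_trans (Nat.le_ceil _) (by exact_mod_cast h1)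
  have hNr : (20 : ℝ) ≤ N := by exact_mod_cast hN20
  have hN0 : (0 : ℝ) < N := by linarith
  have hNc : (N : ℂ) ≠ 0 := by
    have : N ≠ 0 := by omega
    exact_mod_cast this
  -- the facts for each `t`
  have hfact : ∀ t ∈ Metric.ball (1 / 4 : ℂ) (1 / 200), ∃ z : ℂ, ‖z - 1 / a‖ ≤ 3 / a ^ 2 ∧
      2 * Real.pi * I * a * z - 2 * Real.pi * I + deriv (fun y => GA N y t + P y) z = 0 ∧
        1 / (C1 * N) * Real.exp (N * (Psi a (fun y => GA N y t + P y) z).re) ≤
          ‖IL N a ((1 + θ) / a ^ 2) ρ (fun y => GA N y t + P y) (fun _ => 1)‖ ∧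
        ‖IL N a ((1 + θ) / a ^ 2) ρ (fun y => GA N y t + P y) (fun _ => 1)‖ ≤
          C1 * Real.exp (N * (Psi a (fun y => GA N y t + P y) z).re) ∧
        ∀ B : ℂ → ℂ, DifferentiableOn ℂ B (Metric.ball 0 ρ) →
          (∀ z ∈ Metric.ball (0 : ℂ) ρ, ‖B z‖ ≤ 1) →
          ‖IL N a ((1 + θ) / a ^ 2) ρ (fun y => GA N y t + P y) B -
            B z * IL N a ((1 + θ) / a ^ 2) ρ (fun y => GA N y t + P y) (fun _ => 1)‖ ≤
            C1 / Real.sqrt N *
              ‖IL N a ((1 + θ) / a ^ 2) ρ (fun y => GA N y t + P y) (fun _ => 1)‖ := by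
    intro t ht
    rw [Metric.mem_ball, dist_eq_norm] at ht
    apply hN1 N hN1' (fun y => GA N y t + P y)
    · intro y hy
      exact (jf_deriv hN20 hρ1 hP ht hy).differentiableAt.differentiableWithinAt
    · rw [(jf_deriv hN20 hρ1 hP ht (Metric.mem_ball_self hρ)).deriv, hP1]
      unfold GAy
      simp
    · exact jf_lip hC2 hN20 hNC hρ1 hP hL ht
  have hpos : ∀ t ∈ Metric.ball (1 / 4 : ℂ) (1 / 200),
      0 < ‖IL N a ((1 + θ) / a ^ 2) ρ (fun y => GA N y t + P y) (fun _ => 1)‖ := by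
    intro t ht
    obtain ⟨z, -, -, h1, -, -⟩ := hfact t ht
    have : 0 < 1 / (C1 * N) * Real.exp (N * (Psi a (fun y => GA N y t + P y) z).re) := by
      positivity
    linarith
  obtain ⟨v, hv0, hv⟩ := jf_exp_form
    (J := fun t => IL N a ((1 + θ) / a ^ 2) ρ (fun y => GA N y t + P y) (fun _ => 1))
    (J' := fun t => IL N a ((1 + θ) / a ^ 2) ρ (fun y => GA N y t + P y) (fun y => GAt N y t))
    hNc (c := 1 / 4) (r := 1 / 200) (by norm_num)
    (fun t ht => jf_hasDeriv hN20 hh hρ1 hh1 hP ht)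
    (fun t ht => norm_pos_iff.mp (hpos t ht))
  refine ⟨v, fun t => IL N a ((1 + θ) / a ^ 2) ρ (fun y => GA N y t + P y) (fun y => GAt N y t) /
    IL N a ((1 + θ) / a ^ 2) ρ (fun y => GA N y t + P y) (fun _ => 1), hv0, ?_, ?_⟩
  · exact norm_pos_iff.mp (hpos (1 / 4) (Metric.mem_ball_self (by norm_num)))
  intro t ht
  refine ⟨(hv t ht).1, (hv t ht).2, ?_⟩
  obtain ⟨z, hz1, hz2, hlow, hup, hav⟩ := hfact t ht
  have hJp := hpos t ht
  rw [Metric.mem_ball, dist_eq_norm] at ht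
  have hzb : ‖z‖ < ρ := by
    have h1 : ‖z‖ ≤ ‖z - 1 / a‖ + ‖(1 / a : ℂ)‖ := by
      calc ‖z‖ = ‖(z - 1 / a) + 1 / a‖ := by rw [sub_add_cancel]
        _ ≤ _ := norm_add_le _ _
    have h2 : ‖(1 / a : ℂ)‖ = 1 / a := by
      rw [norm_div, norm_one, Complex.norm_natCast]
    have h3 : 3 / (a : ℝ) ^ 2 = 3 * (1 / (a : ℝ) ^ 2) := by ring
    rw [h2] at h1
    rw [h3] at hz1
    linarith
  have hzm : z ∈ Metric.ball (0 : ℂ) ρ := by simpa using hzb
  refine ⟨z, hz1, ?_, ?_, ?_⟩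
  · rw [(jf_deriv hN20 hρ1 hP ht hzm).deriv] at hz2
    rw [← hz2]; ring
  · -- the average
    have hB := hav (fun y => GAt N y t / K)
      (by
        apply DifferentiableOn.div_const
        exact (GAt_diff_y hN20 (by linarith)).mono (Metric.ball_subset_ball (by linarith)))
      (by
        intro u hu
        have hu2 : ‖u‖ < ρ := by simpa using hu
        have h1 := jf_GAt_bound hC2p hC3p hC2 hC3 hN20 (y := u) (t := t) (by linarith) ht
        rw [norm_div, Complex.norm_real, Real.norm_of_nonneg hKp.le, div_le_one hKp]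
        exact h1)
    rw [jf_IL_div] at hB
    set J := IL N a ((1 + θ) / a ^ 2) ρ (fun y => GA N y t + P y) (fun _ => 1) with hJ
    set JB := IL N a ((1 + θ) / a ^ 2) ρ (fun y => GA N y t + P y) (fun y => GAt N y t) with hJB
    have hJne : J ≠ 0 := norm_pos_iff.mp hJp
    have hKc : (K : ℂ) ≠ 0 := by exact_mod_cast hKp.ne'
    have e : JB / J - GAt N z t = K * (JB / K - GAt N z t / K * J) / J := by
      field_simp
    rw [e, norm_div, norm_mul, Complex.norm_real, Real.norm_of_nonneg hKp.le, div_le_iff₀ hJp]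
    have hs : 0 < Real.sqrt N := Real.sqrt_pos.mpr hN0
    calc K * ‖JB / K - GAt N z t / K * J‖ ≤ K * (C1 / Real.sqrt N * ‖J‖) := by gcongr
      _ = (K * C1) / Real.sqrt N * ‖J‖ := by ring
      _ ≤ (K * C1 + |Real.log C1| + 1) / Real.sqrt N * ‖J‖ := by
        gcongr
        have := abs_nonneg (Real.log C1)
        linarith
  · -- the logarithm
    set J := IL N a ((1 + θ) / a ^ 2) ρ (fun y => GA N y t + P y) (fun _ => 1) with hJ
    set x := (Psi a (fun y => GA N y t + P y) z).re with hx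
    have hlogN : 0 ≤ Real.log N := Real.log_nonneg (by linarith)
    have h1 : Real.log ‖J‖ ≤ Real.log C1 + N * x := by
      have h := Real.log_le_log hJp hup
      rwa [Real.log_mul hC1p.ne' (Real.exp_pos _).ne', Real.log_exp] at h
    have h2 : -(Real.log C1 + Real.log N) + N * x ≤ Real.log ‖J‖ := by
      have h := Real.log_le_log (by positivity) hlow
      rwa [Real.log_mul (by positivity) (Real.exp_pos _).ne', Real.log_exp, one_div,
        Real.log_inv, Real.log_mul hC1p.ne' hN0.ne'] at h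
    have h3 := le_abs_self (Real.log C1)
    have h4 := neg_abs_le (Real.log C1)
    have h5 : 0 ≤ K * C1 := by positivity
    have h6 := abs_nonneg (Real.log C1)
    rw [abs_le]
    constructor
    · nlinarith [mul_nonneg h5 hlogN, mul_nonneg h6 hlogN]
    · nlinarith [mul_nonneg h5 hlogN, mul_nonneg h6 hlogN]

end Pool.Agent.Helper9.TF
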