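import Mathlib
import Pool.Agent.Helper11.TF.Lip
import Pool.Agent.Helper85.TF.SL
import Pool.Agent.Helper9.TF.StepDefs

/-!
# The family of local site integrals
-/

namespace Pool.Agent.Helper9.TF

open Complex Finset Filter Topology MeasureTheory
open Pool.Agent.Helper9.TB

lemma jf_Ly_ne {N k : ℕ} {y : ℂ} (hy : y.im ≠ 0) : Ly y - lam N k ≠ 0 := by
  intro h
  unfold Ly lam lamR at h
  have h1 : Complex.cos (2 * Real.pi * y) =
      Complex.cos ((Real.pi - Real.pi * ((2 * k + 1) / N) : ℝ) : ℂ) := by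
    rw [← Complex.ofReal_cos, Real.cos_pi_sub]
    push_cast
    push_cast at h
    linear_combination (-1 / 2 : ℂ) * h
  rw [Complex.cos_eq_cos_iff] at h1
  apply hy
  obtain ⟨n, h2 | h2⟩ := h1
  · have h3 := congrArg Complex.im h2
    rw [Complex.ofReal_im] at h3
    have e : (2 * (n : ℂ) * Real.pi + 2 * Real.pi * y).im = 2 * Real.pi * y.im := by
      have e1 : (2 * (n : ℂ) * Real.pi) = ((2 * n * Real.pi : ℝ) : ℂ) := by push_cast; rfl
      have e2 : (2 * (Real.pi : ℂ) * y) = ((2 * Real.pi : ℝ) : ℂ) * y := by push_cast; rfl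
      rw [Complex.add_im, e1, e2, Complex.ofReal_im, Complex.re_ofReal_mul |> fun _ => Complex.im_ofReal_mul _ _]
      ring
    rw [e] at h3
    have : (2 * Real.pi) ≠ 0 := by positivity
    have h4 := h3.symm
    rcases mul_eq_zero.mp h4 with h5 | h5
    · exact absurd h5 this
    · exact h5
  · have h3 := congrArg Complex.im h2
    rw [Complex.ofReal_im] at h3
    have e : (2 * (n : ℂ) * Real.pi - 2 * Real.pi * y).im = -(2 * Real.pi * y.im) := by
      have e1 : (2 * (n : ℂ) * Real.pi) = ((2 * n * Real.pi : ℝ) : ℂ) := by push_cast; rfl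
      have e2 : (2 * (Real.pi : ℂ) * y) = ((2 * Real.pi : ℝ) : ℂ) * y := by push_cast; rfl
      rw [Complex.sub_im, e1, e2, Complex.ofReal_im, Complex.im_ofReal_mul]
      ring
    rw [e] at h3
    have : (2 * Real.pi) ≠ 0 := by positivity
    have h4 : 2 * Real.pi * y.im = 0 := by linarith
    rcases mul_eq_zero.mp h4 with h5 | h5
    · exact absurd h5 this
    · exact h5

lemma jf_DN_ne {N : ℕ} {y : ℂ} (hy : y.im ≠ 0) : DN N y ≠ 0 := by
  unfold DN
  rw [prod_ne_zero_iff]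
  intro k _
  exact jf_Ly_ne hy

lemma jf_DN_cont (N : ℕ) : Continuous (DN N) := by
  unfold DN Ly
  fun_prop

lemma jf_om_cont (N a : ℕ) : ContinuousOn (om N a) {y : ℂ | y.im ≠ 0} := by
  unfold om dLy
  apply ContinuousOn.div
  · fun_prop
  · exact (jf_DN_cont N).continuousOn
  · intro y hy
    exact jf_DN_ne hy

lemma jf_pt_im (ξ h : ℝ) : (pt ξ h).im = -h := by
  unfold pt; simp

lemma jf_pt_norm (ξ h : ℝ) : ‖pt ξ h‖ ≤ |ξ| + |h| := by
  unfold pt
  calc ‖(ξ : ℂ) + (-h : ℝ) * Complex.I‖ ≤ ‖(ξ : ℂ)‖ + ‖((-h : ℝ) : ℂ) * Complex.I‖ := norm_add_le _ _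
    _ = |ξ| + |h| := by
      rw [norm_mul, Complex.norm_I, mul_one, Complex.norm_real, Complex.norm_real]
      simp

lemma jf_pt_cont (h : ℝ) : Continuous (fun ξ : ℝ => pt ξ h) := by
  unfold pt
  fun_prop

/-- differentiation under the integral sign, continuous case -/
lemma jf_param {F F' : ℂ → ℝ → ℂ} {a b : ℝ} (hab : a ≤ b) {K : Set ℂ} (hK : IsCompact K) {t : ℂ}
    (htK : t ∈ K) (hKn : K ∈ 𝓝 t)
    (cF : ContinuousOn (fun p : ℂ × ℝ => F p.1 p.2) (K ×ˢ Set.Icc a b))
    (cF' : ContinuousOn (fun p : ℂ × ℝ => F' p.1 p.2) (K ×ˢ Set.Icc a b))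
    (hd : ∀ s ∈ K, ∀ ξ ∈ Set.Icc a b, HasDerivAt (fun s => F s ξ) (F' s ξ) s) :
    HasDerivAt (fun s => ∫ ξ in a..b, F s ξ) (∫ ξ in a..b, F' t ξ) t := by
  have sF : ∀ s ∈ K, ContinuousOn (F s) (Set.Icc a b) := by
    intro s hs
    exact cF.comp (f := fun ξ : ℝ => (s, ξ)) (by fun_prop) (fun ξ hξ => ⟨hs, hξ⟩)
  have sF' : ∀ s ∈ K, ContinuousOn (F' s) (Set.Icc a b) := by
    intro s hs
    exact cF'.comp (f := fun ξ : ℝ => (s, ξ)) (by fun_prop) (fun ξ hξ => ⟨hs, hξ⟩)
  have hcomp : IsCompact (K ×ˢ Set.Icc a b) := hK.prod isCompact_Icc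
  obtain ⟨M, hM⟩ := hcomp.exists_bound_of_continuousOn cF'
  have hsub : Set.uIoc a b ⊆ Set.Icc a b := by
    rw [Set.uIoc_of_le hab]; exact Set.Ioc_subset_Icc_self
  have key := intervalIntegral.hasDerivAt_integral_of_dominated_loc_of_deriv_le
    (μ := volume) (F := F) (F' := F') (x₀ := t) (s := K) (a := a) (b := b)
    (bound := fun _ => M) hKn
    (by
      filter_upwards [hKn] with s hs
      exact ((sF s hs).mono hsub).aestronglyMeasurable measurableSet_uIoc)
    (by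
      apply ContinuousOn.intervalIntegrable
      rw [Set.uIcc_of_le hab]
      exact sF t htK)
    (((sF' t htK).mono hsub).aestronglyMeasurable measurableSet_uIoc)
    (by
      filter_upwards with ξ hξ s hs
      exact hM (s, ξ) ⟨hs, hsub hξ⟩)
    intervalIntegrable_const
    (by
      filter_upwards with ξ hξ s hs
      exact hd s hs ξ (hsub hξ))
  exact key.2

end Pool.Agent.Helper9.TF
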