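import Pool.Agent.Helper92.TF.JFam

/-!
# The family of local site integrals: the derivative in `t`
-/

namespace Pool.Agent.Helper9.TF

open Complex Finset Filter Topology MeasureTheory
open Pool.Agent.Helper9.TB

lemma jf_pt_mem {h ρ : ℝ} (hh : 0 < h) (hh1 : h < ρ / 2) {ξ : ℝ}
    (hξ : ξ ∈ Set.Icc (-(ρ / 2)) (ρ / 2)) : pt ξ h ∈ Metric.ball (0 : ℂ) ρ := by
  rw [Metric.mem_ball, dist_zero_right]
  have h1 := jf_pt_norm ξ h
  have h2 : |ξ| ≤ ρ / 2 := abs_le.mpr hξ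
  rw [abs_of_pos hh] at h1
  linarith

lemma jf_cont {N a : ℕ} {h ρ : ℝ} (hh : 0 < h) (hρ1 : ρ ≤ 1 / 1000)
    (hh1 : h < ρ / 2) {P : ℂ → ℂ} (hP : DifferentiableOn ℂ P (Metric.ball 0 ρ))
    {g : ℂ → ℂ → ℂ} {g' : ℂ → ℂ → ℂ}
    (cg : ContinuousOn (fun p : ℂ × ℂ => g p.1 p.2)
      (Metric.ball (0 : ℂ) (1 / 20) ×ˢ Metric.ball (1 / 4 : ℂ) (1 / 20)))
    (cg' : ContinuousOn (fun p : ℂ × ℂ => g' p.1 p.2)
      (Metric.ball (0 : ℂ) (1 / 20) ×ˢ Metric.ball (1 / 4 : ℂ) (1 / 20)))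
    {K : Set ℂ} (hKs2 : K ⊆ Metric.ball (1 / 4 : ℂ) (1 / 20)) :
    ContinuousOn (fun p : ℂ × ℝ =>
      om N a (pt p.2 h) * Complex.exp (N * (g (pt p.2 h) p.1 + P (pt p.2 h))) * g' (pt p.2 h) p.1)
      (K ×ˢ Set.Icc (-(ρ / 2)) (ρ / 2)) := by
  have hmaps : Set.MapsTo (fun p : ℂ × ℝ => (pt p.2 h, p.1)) (K ×ˢ Set.Icc (-(ρ / 2)) (ρ / 2))
      (Metric.ball (0 : ℂ) (1 / 20) ×ˢ Metric.ball (1 / 4 : ℂ) (1 / 20)) := by
    rintro ⟨s, ξ⟩ ⟨h1, h2⟩
    exact ⟨Metric.ball_subset_ball (by linarith) (jf_pt_mem hh hh1 h2), hKs2 h1⟩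
  have hcm : Continuous (fun p : ℂ × ℝ => (pt p.2 h, p.1)) :=
    ((jf_pt_cont h).comp continuous_snd).prodMk continuous_fst
  have c1 : ContinuousOn (fun p : ℂ × ℝ => g (pt p.2 h) p.1)
      (K ×ˢ Set.Icc (-(ρ / 2)) (ρ / 2)) :=
    cg.comp hcm.continuousOn hmaps
  have c2 : ContinuousOn (fun p : ℂ × ℝ => g' (pt p.2 h) p.1)
      (K ×ˢ Set.Icc (-(ρ / 2)) (ρ / 2)) :=
    cg'.comp hcm.continuousOn hmaps
  have c3 : ContinuousOn (fun p : ℂ × ℝ => P (pt p.2 h)) (K ×ˢ Set.Icc (-(ρ / 2)) (ρ / 2)) := by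
    apply hP.continuousOn.comp ((jf_pt_cont h).comp continuous_snd).continuousOn
    rintro ⟨s, ξ⟩ ⟨h1, h2⟩
    exact jf_pt_mem hh hh1 h2
  have c4 : ContinuousOn (fun p : ℂ × ℝ => om N a (pt p.2 h))
      (K ×ˢ Set.Icc (-(ρ / 2)) (ρ / 2)) := by
    apply (jf_om_cont N a).comp ((jf_pt_cont h).comp continuous_snd).continuousOn
    rintro ⟨s, ξ⟩ ⟨h1, h2⟩
    simp only [Set.mem_ofPred_eq, Function.comp, jf_pt_im]
    linarith
  exact (c4.mul ((continuousOn_const.mul (c1.add c3)).cexp)).mul c2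

/-- the derivative of the family of local site integrals -/
lemma jf_hasDeriv {N a : ℕ} {h ρ : ℝ} (hN : 20 ≤ N) (hh : 0 < h) (hρ1 : ρ ≤ 1 / 1000)
    (hh1 : h < ρ / 2) {P : ℂ → ℂ} (hP : DifferentiableOn ℂ P (Metric.ball 0 ρ)) {t : ℂ}
    (ht : t ∈ Metric.ball (1 / 4 : ℂ) (1 / 200)) :
    HasDerivAt (fun t => IL N a h ρ (fun y => GA N y t + P y) (fun _ => 1))
      (N * IL N a h ρ (fun y => GA N y t + P y) (fun y => GAt N y t)) t := by
  obtain ⟨ε, hε, hεs⟩ := Metric.isOpen_iff.mp Metric.isOpen_ball t ht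
  have hKs : Metric.closedBall t (ε / 2) ⊆ Metric.ball (1 / 4 : ℂ) (1 / 20) :=
    (Metric.closedBall_subset_ball (by linarith)).trans
      (hεs.trans (Metric.ball_subset_ball (by norm_num)))
  obtain ⟨c1, c2, -⟩ := GA_cont hN
  have cF := jf_cont (N := N) (a := a) hh hρ1 hh1 hP (g := GA N) (g' := fun _ _ => 1) c1
    continuousOn_const hKs
  have cF' := jf_cont (N := N) (a := a) hh hρ1 hh1 hP (g := GA N)
    (g' := fun y t => N * GAt N y t) c1 (continuousOn_const.mul c2) hKs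
  have key := jf_param (by linarith : -(ρ / 2) ≤ ρ / 2)
    (F := fun s ξ => om N a (pt ξ h) * Complex.exp (N * (GA N (pt ξ h) s + P (pt ξ h))) * 1)
    (F' := fun s ξ => om N a (pt ξ h) * Complex.exp (N * (GA N (pt ξ h) s + P (pt ξ h))) *
      (N * GAt N (pt ξ h) s))
    (isCompact_closedBall t (ε / 2)) (Metric.mem_closedBall_self (by linarith))
    (Metric.closedBall_mem_nhds t (by linarith)) cF cF'
    (by
      intro s hs ξ hξ
      have hs2 := hKs hs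
      rw [Metric.mem_ball, dist_eq_norm] at hs2
      have hy := jf_pt_mem hh hh1 hξ
      rw [Metric.mem_ball, dist_zero_right] at hy
      have hd := GA_hasDeriv_t hN (y := pt ξ h) (t := s) (by linarith) hs2
      have h1 : HasDerivAt (fun s => (N : ℂ) * (GA N (pt ξ h) s + P (pt ξ h)))
          (N * GAt N (pt ξ h) s) s := (hd.add_const _).const_mul _
      have h2 := (h1.cexp.const_mul (om N a (pt ξ h))).mul_const (1 : ℂ)
      refine h2.congr_deriv ?_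
      ring)
  have e2 : (N * IL N a h ρ (fun y => GA N y t + P y) (fun y => GAt N y t) : ℂ) =
      ∫ ξ in (-(ρ / 2))..(ρ / 2), om N a (pt ξ h) *
        Complex.exp (N * (GA N (pt ξ h) t + P (pt ξ h))) * (N * GAt N (pt ξ h) t) := by
    unfold IL
    rw [← intervalIntegral.integral_const_mul]
    apply intervalIntegral.integral_congr
    intro ξ _
    ring
  rw [e2]
  exact key

end Pool.Agent.Helper9.TF
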