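import Pool.Agent.Helper92.TF.JFam2

/-!
# The family of local site integrals: the hypotheses of the local analysis
-/

namespace Pool.Agent.Helper9.TF

open Complex Finset Filter Topology MeasureTheory
open Pool.Agent.Helper9.TB

lemma jf_cauchy {D : ℂ → ℂ} {M : ℝ} (hD : DifferentiableOn ℂ D (Metric.ball 0 (1 / 20)))
    (hM : ∀ y ∈ Metric.ball (0 : ℂ) (1 / 20), ‖D y‖ ≤ M) {y z : ℂ} (hy : ‖y‖ < 1 / 1000)
    (hz : ‖z‖ < 1 / 1000) : ‖D y - D z‖ ≤ 25 * M * ‖y - z‖ := by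
  have hd : ∀ x ∈ Metric.ball (0 : ℂ) (1 / 1000), DifferentiableAt ℂ D x := by
    intro x hx
    exact hD.differentiableAt (Metric.isOpen_ball.mem_nhds
      (Metric.ball_subset_ball (by norm_num) hx))
  have hb : ∀ x ∈ Metric.ball (0 : ℂ) (1 / 1000), ‖deriv D x‖ ≤ 25 * M := by
    intro x hx
    rw [Metric.mem_ball, dist_zero_right] at hx
    have hsub : Metric.closedBall x (1 / 25) ⊆ Metric.ball (0 : ℂ) (1 / 20) := by
      intro u hu
      rw [Metric.mem_closedBall, dist_eq_norm] at hu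
      rw [Metric.mem_ball, dist_zero_right]
      calc ‖u‖ = ‖(u - x) + x‖ := by rw [sub_add_cancel]
        _ ≤ ‖u - x‖ + ‖x‖ := norm_add_le _ _
        _ < 1 / 20 := by linarith
    have h1 := Complex.norm_deriv_le_of_forall_mem_sphere_norm_le (f := D) (c := x) (R := 1 / 25)
      (C := M) (by norm_num)
      (DifferentiableOn.diffContOnCl (by
        rw [closure_ball x (by norm_num)]
        exact hD.mono hsub))
      (fun u hu => hM u (hsub (Metric.sphere_subset_closedBall hu)))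
    calc ‖deriv D x‖ ≤ M / (1 / 25) := h1
      _ = 25 * M := by ring
  have h2 := (convex_ball (0 : ℂ) (1 / 1000)).norm_image_sub_le_of_norm_deriv_le (f := D) hd hb
    (x := z) (y := y) (by simpa using hz) (by simpa using hy)
  exact h2

/-- the slope of the exponent -/
lemma jf_deriv {N : ℕ} {ρ : ℝ} (hN : 20 ≤ N) (hρ1 : ρ ≤ 1 / 1000) {P : ℂ → ℂ}
    (hP : DifferentiableOn ℂ P (Metric.ball 0 ρ)) {t : ℂ} (ht : ‖t - 1 / 4‖ < 1 / 200) {y : ℂ}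
    (hy : y ∈ Metric.ball (0 : ℂ) ρ) :
    HasDerivAt (fun y => GA N y t + P y) (GAy N y t + deriv P y) y := by
  have hy2 : ‖y‖ < ρ := by simpa using hy
  have h1 := GA_hasDeriv_y hN (y := y) (t := t) (by linarith) (by linarith)
  have h2 := (hP.differentiableAt (Metric.isOpen_ball.mem_nhds hy)).hasDerivAt
  exact h1.add h2

lemma jf_D_diff {N : ℕ} (hN : 20 ≤ N) {t : ℂ} (ht : ‖t - 1 / 4‖ < 1 / 200) :
    DifferentiableOn ℂ (fun y => GAy N y t - gamy y t) (Metric.ball 0 (1 / 20)) := by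
  have h1 : ∀ y ∈ Metric.ball (0 : ℂ) (1 / 20),
      HasDerivAt (fun y => GA N y t - gam y t) (GAy N y t - gamy y t) y := by
    intro y hy
    have hy2 : ‖y‖ < 1 / 20 := by simpa using hy
    exact (GA_hasDeriv_y hN hy2 (by linarith)).sub (gam_hasDeriv_y hy2 (by linarith))
  have h2 : DifferentiableOn ℂ (fun y => GA N y t - gam y t) (Metric.ball 0 (1 / 20)) :=
    fun y hy => (h1 y hy).differentiableAt.differentiableWithinAt
  have h3 := h2.deriv Metric.isOpen_ball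
  exact h3.congr (fun y hy => (h1 y hy).deriv.symm)

lemma jf_lip {C2 : ℝ} (hC2 : ∀ N : ℕ, 20 ≤ N → ∀ y t : ℂ, ‖y‖ < 1 / 20 → ‖t - 1 / 4‖ < 1 / 20 →
    ‖GA N y t - gam y t‖ ≤ C2 * (1 + Real.log N) / N ∧ ‖GAy N y t - gamy y t‖ ≤ C2 / N ∧
    ‖GAt N y t - gamt y t‖ ≤ C2 / N) {N : ℕ} (hN : 20 ≤ N) (hN2 : 100 * C2 ≤ N) {ρ θ : ℝ}
    (hρ1 : ρ ≤ 1 / 1000) {P : ℂ → ℂ} (hP : DifferentiableOn ℂ P (Metric.ball 0 ρ))
    (hL : LipS 0 ρ θ (1 / 2) (deriv P)) {t : ℂ} (ht : ‖t - 1 / 4‖ < 1 / 200) :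
    LipS 0 ρ (1 + θ) 1 (deriv (fun y => GA N y t + P y)) := by
  intro y hy z hz
  rw [(jf_deriv hN hρ1 hP ht hy).deriv, (jf_deriv hN hρ1 hP ht hz).deriv]
  have hy2 : ‖y‖ < ρ := by simpa using hy
  have hz2 : ‖z‖ < ρ := by simpa using hz
  have hN0 : (0 : ℝ) < N := by
    have : (20 : ℝ) ≤ N := by exact_mod_cast hN
    linarith
  have h1 := jf_cauchy (jf_D_diff hN ht) (M := C2 / N) (y := y) (z := z)
    (fun u hu => (hC2 N hN u t (by simpa using hu) (by linarith)).2.1) (by linarith) (by linarith)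
  have h2 := gamy_lip (y := y) (z := z) (t := t) (by linarith) (by linarith) ht
  have h3 := hL y hy z hz
  have h4 : 25 * (C2 / N) ≤ 1 / 4 := by
    rw [show 25 * (C2 / N) = (25 * C2) / N by ring, div_le_iff₀ hN0]
    linarith
  have h5 : 25 * (C2 / N) * ‖y - z‖ ≤ 1 / 4 * ‖y - z‖ :=
    mul_le_mul_of_nonneg_right h4 (norm_nonneg _)
  have e : GAy N y t + deriv P y - (GAy N z t + deriv P z) +
      2 * Real.pi * ((1 + θ : ℝ) : ℂ) * (y - z) =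
      ((GAy N y t - gamy y t) - (GAy N z t - gamy z t)) +
      (gamy y t - gamy z t + 2 * Real.pi * (y - z)) +
      (deriv P y - deriv P z + 2 * Real.pi * θ * (y - z)) := by
    push_cast; ring
  have e2 : (2 * Real.pi * ((1 + θ : ℝ) : ℂ) * (y - z)) =
    2 * Real.pi * ((1 + θ : ℝ) : ℂ) * (y - z) := rfl
  rw [e]
  calc _ ≤ ‖((GAy N y t - gamy y t) - (GAy N z t - gamy z t)) +
      (gamy y t - gamy z t + 2 * Real.pi * (y - z))‖ +
      ‖deriv P y - deriv P z + 2 * Real.pi * θ * (y - z)‖ := norm_add_le _ _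
    _ ≤ ‖(GAy N y t - gamy y t) - (GAy N z t - gamy z t)‖ +
      ‖gamy y t - gamy z t + 2 * Real.pi * (y - z)‖ +
      ‖deriv P y - deriv P z + 2 * Real.pi * θ * (y - z)‖ := by
        gcongr
        exact norm_add_le _ _
    _ ≤ 1 * ‖y - z‖ := by linarith

lemma jf_GAt_bound {C2 C3 : ℝ} (hC2p : 0 < C2) (hC3p : 0 < C3)
    (hC2 : ∀ N : ℕ, 20 ≤ N → ∀ y t : ℂ, ‖y‖ < 1 / 20 → ‖t - 1 / 4‖ < 1 / 20 →
    ‖GA N y t - gam y t‖ ≤ C2 * (1 + Real.log N) / N ∧ ‖GAy N y t - gamy y t‖ ≤ C2 / N ∧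
    ‖GAt N y t - gamt y t‖ ≤ C2 / N)
    (hC3 : ∀ y t : ℂ, ‖y‖ < 1 / 20 → ‖t - 1 / 4‖ < 1 / 20 →
    ‖gamy y t + 2 * Real.pi * y‖ ≤ C3 * ‖y‖ * (‖y‖ ^ 2 + ‖t - 1 / 4‖) ∧
    ‖gamt y t - gamt 0 t‖ ≤ C3 * ‖y‖ ^ 2)
    {N : ℕ} (hN : 20 ≤ N) {y t : ℂ} (hy : ‖y‖ < 1 / 1000) (ht : ‖t - 1 / 4‖ < 1 / 200) :
    ‖GAt N y t‖ ≤ C2 + C3 + 1 := by
  have hN0 : (1 : ℝ) ≤ N := by
    have : (20 : ℝ) ≤ N := by exact_mod_cast hN
    linarith
  have h1 := (hC2 N hN y t (by linarith) (by linarith)).2.2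
  have h2 := (hC3 y t (by linarith) (by linarith)).2
  have h3 := gamt_lip (y := 0) (t := t) (s := 1 / 4) (by simp) ht (by norm_num)
  rw [gamt_zero] at h3
  have h4 : C2 / N ≤ C2 := div_le_self hC2p.le hN0
  have h5 : C3 * ‖y‖ ^ 2 ≤ C3 := by
    have : ‖y‖ ^ 2 ≤ 1 := by
      have h0 := norm_nonneg y
      nlinarith
    nlinarith
  have hpi : Real.pi < 3.15 := Real.pi_lt_d2
  have h6 : ‖(4 * Real.pi * (t - 1 / 4) : ℂ)‖ = 4 * Real.pi * ‖t - 1 / 4‖ := by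
    rw [norm_mul, norm_mul, Complex.norm_real, Real.norm_of_nonneg Real.pi_pos.le]
    simp
  have h7 : ‖gamt 0 t‖ ≤ 1 := by
    have e : gamt 0 t = (gamt 0 t - 0 + 4 * Real.pi * (t - 1 / 4)) - 4 * Real.pi * (t - 1 / 4) := by
      ring
    rw [e]
    calc _ ≤ ‖gamt 0 t - 0 + 4 * Real.pi * (t - 1 / 4)‖ + ‖(4 * Real.pi * (t - 1 / 4) : ℂ)‖ :=
          norm_sub_le _ _
      _ ≤ 1 / 4 * ‖t - 1 / 4‖ + 4 * Real.pi * ‖t - 1 / 4‖ := by rw [h6]; linarith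
      _ ≤ 1 := by
        have h0 := norm_nonneg (t - 1 / 4)
        have : Real.pi * ‖t - 1 / 4‖ ≤ 3.15 * (1 / 200) := by
          apply mul_le_mul hpi.le ht.le h0 (by norm_num)
        linarith
  calc ‖GAt N y t‖ = ‖(GAt N y t - gamt y t) + (gamt y t - gamt 0 t) + gamt 0 t‖ := by
        congr 1; ring
    _ ≤ ‖GAt N y t - gamt y t‖ + ‖gamt y t - gamt 0 t‖ + ‖gamt 0 t‖ := norm_add₃_le
    _ ≤ C2 + C3 + 1 := by linarith

end Pool.Agent.Helper9.TF
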